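import Pool.Agent.Q309.SFT.Defs

/-!
# Winning strategies of player II are preserved by all forcings
-/

set_option autoImplicit false
set_option linter.unusedSectionVars false

namespace Pool.Agent.Q309.SFT

open Pool.Agent.Helper669.Forcing

universe u v

theorem init_succ {α : Type v} (A : ℕ → α) (n : ℕ) : init A (n + 1) = init A n ++ [A n] := by
  simp [init, List.range_succ]

theorem init_zero {α : Type v} (A : ℕ → α) : init A 0 = [] := rfl

theorem init_congr {α : Type v} (A B : ℕ → α) (n : ℕ) (h : ∀ k < n, A k = B k) :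
    init A n = init B n := by
  induction n with
  | zero => rfl
  | succ n ih => rw [init_succ, init_succ, ih fun k hk => h k (by omega), h n (by omega)]

theorem length_init {α : Type v} (A : ℕ → α) (n : ℕ) : (init A n).length = n := by
  simp [init]

/-- A winning strategy of player II gives a winning strategy for the player who chooses
neighbourhoods in the clustering game. -/
theorem exists_nbhds {X : Type v} [TopologicalSpace X] {x : X} (h : Wins x) :
    ∃ N : List X → Set X, (∀ s, IsOpen (N s) ∧ x ∈ N s) ∧
      ∀ y : ℕ → X, (∀ n, y n ∈ N (init y n)) → x ∈ closure (Set.range y) := by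
  classical
  obtain ⟨σ, hσ⟩ := h
  -- the strategy answers with elements
  have hmem : ∀ (h : List (Set X)) (A : Set X), (∀ B ∈ h, x ∈ closure B) → x ∈ closure A →
      σ (h ++ [A]) ∈ A := by
    intro h A hh hA
    let C : ℕ → Set X := fun k => h.getD k A
    have h1 : init C (h.length + 1) = h ++ [A] := by
      rw [init_succ]
      congr 1
      · apply List.ext_getElem
        · rw [length_init]
        · intro i hi1 hi2
          simp only [init, C, List.getElem_map, List.getElem_range]
          exact List.getD_eq_getElem _ _ hi2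
      · simp [C]
    have h2 : C h.length = A := by simp [C]
    have h3 : ∀ n, x ∈ closure (C n) := by
      intro n
      by_cases hn : n < h.length
      · have : C n = h[n] := List.getD_eq_getElem _ _ hn
        rw [this]
        exact hh _ (List.getElem_mem hn)
      · have : C n = A := List.getD_eq_default _ _ (not_lt.1 hn)
        rw [this]
        exact hA
    have h4 := (hσ C h3).1 h.length
    rwa [h1, h2] at h4
  let R : List (Set X) → Set X := fun h => {a | ∃ A, x ∈ closure A ∧ σ (h ++ [A]) = a}
  let U : List (Set X) → Set X := fun h =>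
    if ∀ B ∈ h, x ∈ closure B then (closure (R h)ᶜ)ᶜ else Set.univ
  have hU : ∀ h, IsOpen (U h) ∧ x ∈ U h := by
    intro h
    by_cases hh : ∀ B ∈ h, x ∈ closure B
    · have h1 : U h = (closure (R h)ᶜ)ᶜ := if_pos hh
      rw [h1]
      refine ⟨isClosed_closure.isOpen_compl, fun hcon => ?_⟩
      have h2 := hmem h _ hh hcon
      exact h2 ⟨_, hcon, rfl⟩
    · have h1 : U h = Set.univ := if_neg hh
      rw [h1]
      exact ⟨isOpen_univ, Set.mem_univ _⟩
  have hUR : ∀ h, (∀ B ∈ h, x ∈ closure B) → ∀ a ∈ U h, ∃ A, x ∈ closure A ∧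
      σ (h ++ [A]) = a := by
    intro h hh a ha
    have h1 : U h = (closure (R h)ᶜ)ᶜ := if_pos hh
    rw [h1] at ha
    by_contra hcon
    exact ha (subset_closure hcon)
  let B : List (Set X) → X → Set X := fun h a =>
    if hh : ∃ A, x ∈ closure A ∧ σ (h ++ [A]) = a then Classical.choose hh else Set.univ
  have hB : ∀ h a, x ∈ closure (B h a) := by
    intro h a
    by_cases hh : ∃ A, x ∈ closure A ∧ σ (h ++ [A]) = a
    · simp only [B, dif_pos hh]
      exact (Classical.choose_spec hh).1
    · simp only [B, dif_neg hh]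
      rw [closure_univ]
      exact Set.mem_univ _
  have hBσ : ∀ h a, (∃ A, x ∈ closure A ∧ σ (h ++ [A]) = a) → σ (h ++ [B h a]) = a := by
    intro h a hh
    simp only [B, dif_pos hh]
    exact (Classical.choose_spec hh).2
  let H : List X → List (Set X) := fun s => s.foldl (fun h a => h ++ [B h a]) []
  have hH : ∀ s a, H (s ++ [a]) = H s ++ [B (H s) a] := by
    intro s a
    simp [H, List.foldl_append]
  refine ⟨fun s => U (H s), fun s => hU _, fun y hy => ?_⟩
  let A : ℕ → Set X := fun n => B (H (init y n)) (y n)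
  have hA : ∀ n, x ∈ closure (A n) := fun n => hB _ _
  have hHA : ∀ n, H (init y n) = init A n := by
    intro n
    induction n with
    | zero => rfl
    | succ n ih =>
      rw [init_succ, hH, init_succ, ih]
      simp only [A, ih]
  have hlegal : ∀ n, ∀ B ∈ init A n, x ∈ closure B := by
    intro n B hB
    obtain ⟨k, -, rfl⟩ := List.mem_map.1 hB
    exact hA k
  have hans : ∀ n, σ (init A (n + 1)) = y n := by
    intro n
    rw [init_succ, ← hHA n]
    refine hBσ _ _ (hUR _ ?_ _ (hy n))
    rw [hHA n]
    exact hlegal n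
  have := (hσ A hA).2
  have h1 : (Set.range fun n => σ (init A (n + 1))) = Set.range y := by
    congr 1
    funext n
    exact hans n
  rwa [h1] at this

section force

variable {P : Type u} [Preorder P] {X : Type v}

/-- Regular sentences. -/
def Reg (φ : Set P) : Prop := ∀ p, (∀ q ≤ p, ∃ r ≤ q, r ∈ φ) → p ∈ φ

theorem reg_meets (N : Set P) : Reg (meets N) := by
  intro p h q hq
  obtain ⟨r, hr, hr'⟩ := h q hq
  obtain ⟨s, hs, t, ht, hst⟩ := hr' r le_rfl
  exact ⟨s, hs.trans hr, t, ht, hst⟩

theorem mp {φ ψ : Set P} {p : P} (hψ : Reg ψ) (hφ : Down φ) (h : p ∈ fimp φ ψ) (h' : p ∈ φ) :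
    p ∈ ψ := hψ p fun q hq => mem_fimp.1 h q hq (hφ _ h' _ hq)

theorem down_FCl [TopologicalSpace X] (x : X) (A : X → Set P) : Down (FCl P x A) :=
  down_fall fun _ => down_fall fun _ => down_fall fun _ => down_fex _

theorem down_SameSet (A B : X → Set P) : Down (SameSet P A B) :=
  down_fall fun _ => down_fand (down_fimp _ _) (down_fimp _ _)

theorem down_SameList (L L' : List (X → Set P)) : Down (SameList P L L') :=
  down_fand (down_fground _) (down_fall fun _ => down_SameSet _ _)

theorem SameSet.iff {A B : X → Set P} {p : P} (h : p ∈ SameSet P A B) (a : X) :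
    p ∈ meets (A a) ↔ p ∈ meets (B a) :=
  ⟨mp (reg_meets _) (down_meets _) (h a).1, mp (reg_meets _) (down_meets _) (h a).2⟩

/-- `Resp N r L s p`: the condition `p` decides that `s` is the sequence of the answers to the
sequence of moves `L`, where the answer to a move is the least element of this move in the
neighbourhood given by `N`. The lists are given in reverse order. -/
def Resp (N : List X → Set X) (r : X → X → Prop) : List (X → Set P) → List X → P → Prop
  | [], [], _ => True
  | A :: L, a :: s, p => Resp N r L s p ∧ a ∈ N s.reverse ∧ p ∈ meets (A a) ∧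
      ∀ b, r b a → b ∈ N s.reverse → p ∈ fnot (meets (A b))
  | _, _, _ => False

variable {N : List X → Set X} {r : X → X → Prop}

theorem Resp.mono {L : List (X → Set P)} {s : List X} {p q : P} (h : Resp N r L s p)
    (hq : q ≤ p) : Resp N r L s q := by
  induction L generalizing s with
  | nil =>
    cases s with
    | nil => trivial
    | cons a s => exact h
  | cons A L ih =>
    cases s with
    | nil => exact h
    | cons a s =>
      obtain ⟨h1, h2, h3, h4⟩ := h
      exact ⟨ih h1, h2, down_meets _ _ h3 _ hq, fun b hb hb' => down_fnot _ _ (h4 b hb hb') _ hq⟩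

theorem Resp.unique (hr : ∀ a b, r a b ∨ a = b ∨ r b a) {L : List (X → Set P)}
    {s s' : List X} {p : P} (h : Resp N r L s p) (h' : Resp N r L s' p) : s = s' := by
  induction L generalizing s s' with
  | nil =>
    cases s with
    | nil =>
      cases s' with
      | nil => rfl
      | cons a s' => exact h'.elim
    | cons a s => exact h.elim
  | cons A L ih =>
    cases s with
    | nil => exact h.elim
    | cons a s =>
      cases s' with
      | nil => exact h'.elim
      | cons a' s' =>
        obtain ⟨h1, h2, h3, h4⟩ := h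
        obtain ⟨h1', h2', h3', h4'⟩ := h'
        have hs := ih h1 h1'
        subst hs
        rcases hr a a' with h5 | h5 | h5
        · exact absurd h3 (h4' a h5 h2 p le_rfl)
        · rw [h5]
        · exact absurd h3' (h4 a' h5 h2' p le_rfl)

theorem Resp.congr {L L' : List (X → Set P)} {s : List X} {p : P} (h : Resp N r L s p)
    (hL : List.Forall₂ (fun A B => p ∈ SameSet P A B) L L') : Resp N r L' s p := by
  induction hL generalizing s with
  | nil => exact h
  | @cons A B L L' hAB _ ih =>
    cases s with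
    | nil => exact h
    | cons a s =>
      obtain ⟨h1, h2, h3, h4⟩ := h
      refine ⟨ih h1, h2, (SameSet.iff hAB a).1 h3, fun b hb hb' q hq hqB => ?_⟩
      exact h4 b hb hb' q hq ((SameSet.iff (down_SameSet _ _ _ hAB _ hq) b).2 hqB)

/-- The strategy in the extension. -/
def strat (P : Type u) [Preorder P] (N : List X → Set X) (r : X → X → Prop) :
    List (X → Set P) → X → Set P :=
  fun L a => {p | ∃ s : List X, Resp N r L.reverse (a :: s) p}

theorem down_strat (L : List (X → Set P)) (a : X) : Down (strat P N r L a) :=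
  fun _ ⟨s, hs⟩ _ hq => ⟨s, hs.mono hq⟩

theorem forall₂_of_sameList {L L' : List (X → Set P)} {p : P} (h : p ∈ SameList P L L') :
    List.Forall₂ (fun A B => p ∈ SameSet P A B) L.reverse L'.reverse := by
  obtain ⟨h1, h2⟩ := h
  have h1 : L.length = L'.length := h1
  rw [List.forall₂_reverse_iff, List.forall₂_iff_get]
  refine ⟨h1, fun i hi hi' => ?_⟩
  have h3 : p ∈ SameSet P (L.getD i fun _ => ∅) (L'.getD i fun _ => ∅) := h2 i
  rw [List.getD_eq_getElem _ _ hi, List.getD_eq_getElem _ _ hi'] at h3
  exact h3

theorem sameSet_symm {A B : X → Set P} {p : P} (h : p ∈ SameSet P A B) : p ∈ SameSet P B A :=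
  fun a => ⟨(h a).2, (h a).1⟩

theorem isStrat_strat (hr : ∀ a b, r a b ∨ a = b ∨ r b a) (p : P) :
    p ∈ IsStrat P (strat P N r) := by
  refine ⟨fun L L' => ?_, fun L a b => ?_⟩
  · refine mem_fimp.2 fun q _ hqL => ⟨q, le_rfl, fun a => ?_⟩
    have key : ∀ (L L' : List (X → Set P)), q ∈ SameList P L L' →
        q ∈ fimp (meets (strat P N r L a)) (meets (strat P N r L' a)) := by
      intro L L' hLL'
      refine mem_fimp.2 fun q' hq' hm => ?_
      obtain ⟨t, ht, s, hs⟩ := exists_of_meets (down_strat L a) hm
      refine ⟨t, ht, meets_of_mem ⟨s, hs.congr ?_⟩⟩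
      exact forall₂_of_sameList (down_SameList _ _ _ hLL' _ (ht.trans hq'))
    refine ⟨key L L' hqL, key L' L ⟨?_, fun i => sameSet_symm (hqL.2 i)⟩⟩
    exact Eq.symm (show L.length = L'.length from hqL.1)
  · refine mem_fimp.2 fun q _ hq => ?_
    obtain ⟨t, ht, s, hs⟩ := exists_of_meets (down_strat L a) hq.1
    obtain ⟨t', ht', s', hs'⟩ := exists_of_meets (down_strat L b) (down_meets _ _ hq.2 _ ht)
    refine ⟨t', ht'.trans ht, ?_⟩
    have h1 := (hs.mono ht').unique hr hs'
    exact (List.cons.inj h1).1

/-- The answers can be decided one by one. -/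
theorem exists_answer [TopologicalSpace X] {x : X} (hwf : WellFounded r)
    (hN : ∀ s, IsOpen (N s) ∧ x ∈ N s) {L : List (X → Set P)} {A : X → Set P} {s : List X} {p : P}
    (h : Resp N r L s p) (hA : p ∈ FCl P x A) :
    ∃ q ≤ p, ∃ a, Resp N r (A :: L) (a :: s) q := by
  have h1 : ∃ a, a ∈ N s.reverse ∧ ∃ q ≤ p, q ∈ meets (A a) := by
    obtain ⟨q, hq, a, ha1, ha2⟩ := mem_fex.1 (hA _ (hN s.reverse).1 (hN s.reverse).2) p le_rfl
    exact ⟨a, ha1, q, hq, ha2⟩
  obtain ⟨a, ⟨ha, q, hq, hqa⟩, hmin⟩ := hwf.has_min {a | a ∈ N s.reverse ∧ ∃ q ≤ p,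
    q ∈ meets (A a)} h1
  refine ⟨q, hq, a, h.mono hq, ha, hqa, fun b hb hbN t ht htb => ?_⟩
  exact hmin b ⟨hbN, t, ht.trans hq, htb⟩ hb

theorem fwins_of_nbhds [TopologicalSpace X] {x : X} (hN : ∀ s, IsOpen (N s) ∧ x ∈ N s)
    (hN' : ∀ y : ℕ → X, (∀ n, y n ∈ N (init y n)) → x ∈ closure (Set.range y)) (p : P) :
    p ∈ FWins P x := by
  classical
  let r : X → X → Prop := WellOrderingRel
  have hwf : WellFounded r := IsWellFounded.wf
  have hr : ∀ a b, r a b ∨ a = b ∨ r b a := fun a b => trichotomous_of r a b
  refine mem_fex_of_mem (strat P N r) (down_fand (down_fand (down_fall fun _ => down_fall fun _ =>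
    down_fimp _ _) (down_fall fun _ => down_fall fun _ => down_fall fun _ => down_fimp _ _))
    (down_fall fun _ => down_fimp _ _)) ⟨isStrat_strat hr p, ?_⟩
  intro A
  refine mem_fimp.2 fun q _ hq => ⟨q, le_rfl, ?_⟩
  -- deciding the answers
  have hrev : ∀ n, (init A (n + 1)).reverse = A n :: (init A n).reverse := by
    intro n
    rw [init_succ, List.reverse_append]
    rfl
  have hdec : ∀ (n : ℕ) (q' : P), q' ≤ q → ∃ t ≤ q', ∃ s, Resp N r (init A n).reverse s t := by
    intro n
    induction n with
    | zero => exact fun q' _ => ⟨q', le_rfl, [], trivial⟩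
    | succ n ih =>
      intro q' hq'
      obtain ⟨t, ht, s, hs⟩ := ih q' hq'
      obtain ⟨t', ht', a, ha⟩ := exists_answer hwf hN hs
        (down_FCl _ _ _ (hq n) _ (ht.trans hq'))
      refine ⟨t', ht'.trans ht, a :: s, ?_⟩
      rw [hrev]
      exact ha
  constructor
  · intro n
    rw [mem_fex]
    intro q' hq'
    obtain ⟨t, ht, s, hs⟩ := hdec (n + 1) q' hq'
    rw [hrev] at hs
    cases s with
    | nil => exact hs.elim
    | cons a s =>
      refine ⟨t, ht, a, meets_of_mem ⟨s, ?_⟩, hs.2.2.1⟩
      rw [hrev]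
      exact hs
  · intro U hUo hxU
    rw [mem_fex]
    intro q' hq'
    by_contra hcon
    push Not at hcon
    -- a descending sequence of conditions deciding the answers
    have hstep : ∀ (n : ℕ) (c : {c : P × List X // c.1 ≤ q' ∧
        Resp N r (init A n).reverse c.2 c.1}), ∃ (t : P) (a : X), t ≤ c.1.1 ∧
        Resp N r (init A (n + 1)).reverse (a :: c.1.2) t := by
      rintro n ⟨⟨t, s⟩, ht, hs⟩
      obtain ⟨t', ht', a, ha⟩ := exists_answer hwf hN hs
        (down_FCl _ _ _ (hq n) _ (ht.trans hq'))
      refine ⟨t', a, ht', ?_⟩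
      rw [hrev]
      exact ha
    choose T Y hT hY using hstep
    let C : (n : ℕ) → {c : P × List X // c.1 ≤ q' ∧ Resp N r (init A n).reverse c.2 c.1} :=
      fun n => Nat.rec ⟨(q', []), le_rfl, trivial⟩
        (fun n c => ⟨(T n c, Y n c :: c.1.2), (hT n c).trans c.2.1, hY n c⟩) n
    let y : ℕ → X := fun n => Y n (C n)
    have hC : ∀ n, (C (n + 1)).1 = (T n (C n), y n :: (C n).1.2) := fun n => rfl
    have hCs : ∀ n, (C n).1.2.reverse = init y n := by
      intro n
      induction n with
      | zero => rfl
      | succ n ih =>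
        rw [hC, init_succ, List.reverse_cons, ih]
    have hyN : ∀ n, y n ∈ N (init y n) := by
      intro n
      have h1 := (C (n + 1)).2.2
      rw [hC, hrev] at h1
      rw [← hCs n]
      exact h1.2.1
    have hcl := hN' y hyN
    rw [mem_closure_iff] at hcl
    obtain ⟨a, haU, n, rfl⟩ := hcl U hUo hxU
    have h1 := (C (n + 1)).2
    refine hcon (C (n + 1)).1.1 h1.1 (y n) ⟨haU, meets_of_mem ?_⟩
    refine mem_fex_of_mem n (down_meets _) (meets_of_mem ⟨(C n).1.2, ?_⟩)
    exact h1.2

/-- Preservation of the existence of a winning strategy of player II at `x`. -/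
theorem main [TopologicalSpace X] {x : X} (h : Wins x) (p : P) : p ∈ FWins P x := by
  obtain ⟨N, hN, hN'⟩ := exists_nbhds h
  exact fwins_of_nbhds hN hN' p

end force

end Pool.Agent.Q309.SFT
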