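import Pool.Agent.Helper669.Forcing

/-!
# The strong countable fan tightness game in the ground model and in the extension

We use the forcing language of `Pool.Agent.Helper669.Forcing`: a statement about the extension is
represented by the set of the conditions that force it; a name for a subset of a ground model set
`X` is a map from `X` to sets of conditions, and `meets (A a)` is the statement that `a` belongs
to the set named by `A`.
-/

set_option autoImplicit false

namespace Pool.Agent.Q309.SFT

open Pool.Agent.Helper669.Forcing

universe u v

/-- The finite sequence `A 0, …, A (n - 1)`. -/
def init {α : Type v} (A : ℕ → α) (n : ℕ) : List α := (List.range n).map A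

/-- In the ground model, player II has a winning strategy in the strong countable fan tightness
game at the point `x`: a function `σ` of the finite sequences of moves of I such that, for all
sequences of moves `A 0, A 1, …` with `x` in the closure of each `A n`, the answers
`σ (A 0, …, A n)` belong to `A n` and `x` is in the closure of the set of the answers. -/
def Wins {X : Type v} [TopologicalSpace X] (x : X) : Prop :=
  ∃ σ : List (Set X) → X, ∀ A : ℕ → Set X, (∀ n, x ∈ closure (A n)) →
    (∀ n, σ (init A (n + 1)) ∈ A n) ∧ x ∈ closure (Set.range fun n => σ (init A (n + 1)))

section names

variable (P : Type u) [Preorder P] {X : Type v}

/-- In the extension, `x` is in the closure of the set named by `A`, for the topology generated by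
the open sets of the ground model: every open neighbourhood of `x` from the ground model meets
`A`. -/
def FCl [TopologicalSpace X] (x : X) (A : X → Set P) : Set P :=
  fall fun U : Set X => fall fun _ : IsOpen U => fall fun _ : x ∈ U =>
    fex fun a : X => fand (fground (a ∈ U)) (meets (A a))

/-- In the extension, the sets named by `A` and `B` are equal. -/
def SameSet (A B : X → Set P) : Set P :=
  fall fun a : X => fand (fimp (meets (A a)) (meets (B a))) (fimp (meets (B a)) (meets (A a)))

/-- In the extension, the finite sequences of sets named by `L` and `L'` are equal. -/
def SameList (L L' : List (X → Set P)) : Set P :=
  fand (fground (L.length = L'.length))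
    (fall fun i : ℕ => SameSet P (L.getD i fun _ => ∅) (L'.getD i fun _ => ∅))

/-- In the extension, `σ` is a (partial) function from finite sequences of subsets of `X` to
points of `X`: to every finite sequence `L` of names of subsets of `X` it assigns a name `σ L` of
a set with at most one element, and equal finite sequences have equal values. -/
def IsStrat (σ : List (X → Set P) → X → Set P) : Set P :=
  fand (fall fun L => fall fun L' => fimp (SameList P L L') (SameSet P (σ L) (σ L')))
    (fall fun L => fall fun a : X => fall fun b : X =>
      fimp (fand (meets (σ L a)) (meets (σ L b))) (fground (a = b)))

/-- In the extension, player II has a winning strategy in the strong countable fan tightness game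
at `x` for the topology generated by the open sets of the ground model: there is a function `σ`
from finite sequences of subsets of `X` to points such that, for all sequences `A 0, A 1, …` of
subsets of `X` with `x` in the closure of each `A n`, the value `σ (A 0, …, A n)` is a point of
`A n`, and `x` is in the closure of the set of all these values. -/
def FWins [TopologicalSpace X] (x : X) : Set P :=
  fex fun σ : List (X → Set P) → X → Set P => fand (IsStrat P σ)
    (fall fun A : ℕ → X → Set P => fimp (fall fun n => FCl P x (A n))
      (fand
        (fall fun n => fex fun a : X => fand (meets (σ (init A (n + 1)) a)) (meets (A n a)))
        (FCl P x fun a => fex fun n : ℕ => meets (σ (init A (n + 1)) a))))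

end names

end Pool.Agent.Q309.SFT
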